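import Pool.Agent.helper95.T5.Defs

set_option autoImplicit false

/-!
# T6, block C: tuples with a discriminant divisible by `d²`

Definitions and interface statements (with block W, helper95: `WG_stmt`; with block H, helper3 and
helper26: `TD_stmt`).  Imports only the tuples of T5.
-/

namespace Pool.Agent.T6

open Finset Pool.Agent.T5

/-- a local class: classes `m`, `g` of `t.2.1`, `t.2.2.1`, class `c` of `RR t` (primes not dividing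
`n`), class `c'` of `RR' t` (primes dividing `n`), a linear condition `Z ≡ u + v m + w g` -/
structure Cls where
  m : ℤ
  g : ℤ
  c : ℤ
  c' : ℤ
  u : ℤ
  v : ℤ
  w : ℤ
  deriving DecidableEq

/-- the part of `e` composed of the primes dividing `n` -/
def e2 (e n : ℕ) : ℕ := ∏ p ∈ e.primeFactors.filter (fun p => p ∣ n), p ^ (e.factorization p)

/-- the tuple `t` lies in the class `x`: `(m, g)` modulo `er es`, `R` (or `R'`) modulo `es`, a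
linear condition for `Z` modulo `er²` -/
structure InC (er es : ℕ) (x : Cls) (t : Tpl) : Prop where
  hm : ((er * es : ℕ) : ℤ) ∣ t.2.1 - x.m
  hg : ((er * es : ℕ) : ℤ) ∣ t.2.2.1 - x.g
  hc : (e1 es t.1.1 : ℤ) ∣ RR t - x.c
  hc' : (e2 es t.1.1 : ℤ) ∣ RR' t - x.c'
  hz : (er : ℤ) ^ 2 ∣ t.2.2.2 - (x.u + x.v * t.2.1 + x.w * t.2.2.1)

/-- WG (block W): upper bound for the number of tuples in given classes -/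
def WG_stmt : Prop :=
  ∃ η : ℝ, 0 < η ∧ ∀ κ A : ℝ, 0 < κ → 1 ≤ A → ∃ C N₀ : ℝ, 1 ≤ C ∧ ∀ N Y Y₂ : ℝ, N₀ ≤ N →
    Y ≤ Y₂ → Y₂ ≤ N ^ η * Y → Y * Y₂ ≤ A * N → N ^ (1 - η) ≤ Y * Y₂ →
    ∀ d er es y : ℕ, 1 ≤ d → (d : ℝ) ≤ N ^ η → 1 ≤ er → 1 ≤ es → Nat.Coprime er es →
    er ^ 2 * es * y ≤ d ^ 2 → Squarefree y → y ∣ es →
    ∀ (s : ℝ) (S : ℕ × ℕ → Finset Cls), (∀ p, ((S p).card : ℝ) ≤ s) →
    ∀ F : Finset Tpl, (∀ t ∈ F, Cen κ (N * (d : ℝ) ^ 2) Y Y₂ t ∧ y ∣ t.1.1 * t.1.2 ∧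
      Nat.Coprime (t.1.1 * t.1.2) er ∧ ∃ x ∈ S t.1, InC er es x t) →
    (F.card : ℝ) ≤ C ^ (y.primeFactors.card + 1) * (s / y) * (Y * Y₂) *
      (1 / ((er : ℝ) ^ 4 * (es : ℝ) ^ 3) +
        (Y * Y₂ / (N * (d : ℝ) ^ 2)) ^ (3 / 2 : ℝ) / (er * (es : ℝ) ^ (1 / 4 : ℝ)))

/-- TD (block C): all the tuples with a discriminant divisible by `d²`, `d ≤ N ^ η` -/
def TD_stmt : Prop :=
  ∃ η : ℝ, 0 < η ∧ ∀ κ A : ℝ, 0 < κ → 1 ≤ A → ∃ C N₀ : ℝ, 1 ≤ C ∧ ∀ N Y Y₂ : ℝ, N₀ ≤ N →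
    Y ≤ Y₂ → Y₂ ≤ N ^ η * Y → Y * Y₂ ≤ A * N → N ^ (1 - η) ≤ Y * Y₂ →
    ∀ F : Finset (ℕ × Tpl), (∀ x ∈ F, 1 ≤ x.1 ∧ (x.1 : ℝ) ≤ N ^ η ∧
      Cen κ (N * (x.1 : ℝ) ^ 2) Y Y₂ x.2 ∧ (x.1 : ℤ) ^ 2 ∣ dis x.2) →
    (F.card : ℝ) ≤ C * (Y * Y₂)

/-- LOCB: the local classes of tuples with `p ^ a ∣ dis`, all primes -/
def LOCB_stmt : Prop :=
  ∀ p a n k : ℕ, p.Prime → 1 ≤ a → 1 ≤ n → 1 ≤ k → Nat.Coprime n k →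
    ∃ L : Finset Cls, L.card ≤ 2 * (a + 1) * p ^ (2 * a + a / 2) ∧
      ∀ t : Tpl, IsT t → t.1 = (n, k) → (p : ℤ) ^ a ∣ dis t → ∃ x ∈ L, InC 1 (p ^ a) x t

/-- LOCA: the local classes of tuples with `p ^ 2 ∣ dis`, `p` odd, `p ∤ n k` -/
def LOCA_stmt : Prop :=
  ∀ p n k : ℕ, p.Prime → p ≠ 2 → 1 ≤ n → 1 ≤ k → Nat.Coprime n k → ¬ p ∣ n * k →
    ∃ L L' : Finset Cls, L.card ≤ 3 * p ^ 2 ∧ L'.card ≤ 12 * p ∧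
      ∀ t : Tpl, IsT t → t.1 = (n, k) → (p : ℤ) ^ 2 ∣ dis t →
        (∃ x ∈ L, InC p 1 x t) ∨ (∃ x ∈ L', InC 1 p x t)

end Pool.Agent.T6
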