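import Pool.Agent.helper8.T6.DefsC

set_option autoImplicit false

/-!
# T6, block C, part 2: glueing the local classes, sum over `d`

`WG_stmt` (block W) and the local classes (`LOCA_stmt`, `LOCB_stmt`) give `TD_stmt`.

Notation in this file: `T = d.primeFactors`, `a = d.factorization p`.  For `d² ∣ dis t` the primes
`p ∣ d` are of four kinds: (reg) `p` odd, `p ∤ n k`, `a ≤ 2`, regular class; (div) `p ∣ n k`;
(big) `p ∤ n k` and `p = 2` or `a ≥ 3`; (sing) the others.  `Sr` is the set of the primes (reg),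
`Sy` the set of the primes (div).
-/

namespace Pool.Agent.T6

open Finset Pool.Agent.T5

/-- the local factor of `er` -/
def mr (Sr : Finset ℕ) (p : ℕ) : ℕ := if p ∈ Sr then p else 1

/-- the local factor of `es` -/
def ms (d : ℕ) (Sr Sy : Finset ℕ) (p : ℕ) : ℕ :=
  if p ∈ Sr then 1 else
    if p ∈ Sy ∨ p = 2 ∨ 3 ≤ d.factorization p then p ^ (d.factorization p) else p

/-- the bound for the number of local classes -/
def mc (d : ℕ) (Sr Sy : Finset ℕ) (p : ℕ) : ℕ :=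
  if p ∈ Sr then 3 * p ^ 2 else
    if p ∈ Sy ∨ p = 2 ∨ 3 ≤ d.factorization p then
      2 * (d.factorization p + 1) * p ^ (2 * d.factorization p + d.factorization p / 2)
    else 12 * p

/-- the local classes -/
def Lp (LA LA' : ℕ → ℕ × ℕ → Finset Cls) (LB : ℕ → ℕ → ℕ × ℕ → Finset Cls) (d : ℕ)
    (Sr Sy : Finset ℕ) (p : ℕ) (q : ℕ × ℕ) : Finset Cls :=
  if p ∈ Sr then LA p q else
    if p ∈ Sy ∨ p = 2 ∨ 3 ≤ d.factorization p then LB p (d.factorization p) q else LA' p q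

/-- a choice of all the local classes -/
structure LocOK (LA LA' : ℕ → ℕ × ℕ → Finset Cls) (LB : ℕ → ℕ → ℕ × ℕ → Finset Cls) : Prop where
  cA : ∀ p q, (LA p q).card ≤ 3 * p ^ 2
  cA' : ∀ p q, (LA' p q).card ≤ 12 * p
  cB : ∀ p a q, (LB p a q).card ≤ 2 * (a + 1) * p ^ (2 * a + a / 2)
  lA : ∀ p : ℕ, p.Prime → p ≠ 2 → ∀ t : Tpl, IsT t → ¬ p ∣ t.1.1 * t.1.2 → (p : ℤ) ^ 2 ∣ dis t →
    (∃ x ∈ LA p t.1, InC p 1 x t) ∨ (∃ x ∈ LA' p t.1, InC 1 p x t)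
  lB : ∀ p a : ℕ, p.Prime → 1 ≤ a → ∀ t : Tpl, IsT t → (p : ℤ) ^ a ∣ dis t →
    ∃ x ∈ LB p a t.1, InC 1 (p ^ a) x t

/-- the Euler factor -/
noncomputable def gg (K : ℝ) (p a : ℕ) : ℝ := K * (a + 1) / (p : ℝ) ^ (max 2 ((a + 1) / 2))

/-! ## Rows -/

/-- **TGL** (medium).  Chinese remainder theorem for two classes.
Proof.  For coprime natural numbers `a, b ≥ 1` and integers `x, y` there is an integer `z` with
`a ∣ z - x`, `b ∣ z - y` (`Int.gcd_eq_gcd_ab`, `z = x + a u (y - x)` where `a u + b v = 1`).  For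
`x ∈ L`, `x' ∈ L'` let `glue x x'` be the class whose coordinates `m, g` come from the moduli
`er es, er' es'`, `c` from `e1 es n, e1 es' n`, `c'` from `e2 es n, e2 es' n`, `u, v, w` from
`er², er'²`.  `M` is the image of `L ×ˢ L'` (`card_image_le`).  If `InC er es x t` and
`InC er' es' x' t` then e.g. `er es ∣ t.2.1 - z` and `er' es' ∣ t.2.1 - z` (`t.2.1 - z = (t.2.1 - x.m)
- (z - x.m)`), so the product `(er er')(es es')` divides (`IsCoprime.mul_dvd`,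
`Int.isCoprime_iff_gcd_eq_one` / `Nat.isCoprime_iff_coprime`).  For coprime `es, es' ≥ 1`:
`e1 (es es') n = e1 es n * e1 es' n` (`Nat.Coprime.primeFactors_mul`, `Nat.primeFactors_mul`,
`Finset.filter_union`, `Finset.prod_union` (disjoint), `Nat.factorization_mul`, and
`es'.factorization p = 0` for `p ∈ es.primeFactors`), the same for `e2`, and `e1 es n ∣ es`
(a product over a subset of `∏ p ^ v = es`), so `e1 es n` and `e1 es' n` are coprime.  Last condition: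
`Z - (z.u + z.v m + z.w g) = Z - (x.u + x.v m + x.w g) - (z.u - x.u) - (z.v - x.v) m - (z.w - x.w) g`. -/
def TGL_stmt : Prop := ∀ (er es er' es' n k : ℕ) (L L' : Finset Cls), 1 ≤ er → 1 ≤ es → 1 ≤ er' →
  1 ≤ es' → Nat.Coprime (er * es) (er' * es') → ∃ M : Finset Cls, M.card ≤ L.card * L'.card ∧
    ∀ t : Tpl, t.1 = (n, k) → (∃ x ∈ L, InC er es x t) → (∃ x ∈ L', InC er' es' x t) →
      ∃ x ∈ M, InC (er * er') (es * es') x t

/-- **TGM** (short-medium; from TGL).  Chinese remainder theorem for finitely many primes.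
Proof.  Induction on `T` (`Finset.induction_on`).  `T = ∅`: `M = {⟨0, 0, 0, 0, 0, 0, 0⟩}`; all the
moduli are `1` (`e1 1 n = 1`, `e2 1 n = 1`: empty products).  `insert p T`: TGL for `(f p, h p)` and the
products over `T`; coprime because `f p * h p ∣ p ^ j` and `f q * h q ∣ q ^ i` for the other primes
(`Nat.Coprime.prod_right`, `Nat.coprime_pow_primes`, `Nat.Coprime.coprime_dvd_left`). -/
def TGM_stmt : Prop := ∀ (T : Finset ℕ) (f h : ℕ → ℕ) (n k : ℕ) (L : ℕ → Finset Cls),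
  (∀ p ∈ T, p.Prime) → (∀ p ∈ T, 1 ≤ f p ∧ 1 ≤ h p ∧ ∃ j, f p * h p ∣ p ^ j) →
  ∃ M : Finset Cls, M.card ≤ ∏ p ∈ T, (L p).card ∧
    ∀ t : Tpl, t.1 = (n, k) → (∀ p ∈ T, ∃ x ∈ L p, InC (f p) (h p) x t) →
      ∃ x ∈ M, InC (∏ p ∈ T, f p) (∏ p ∈ T, h p) x t

/-- **TCH** (short).  Choice of the local classes.
Proof.  For `p` prime, `p ≠ 2`, `n, k ≥ 1` coprime and `p ∤ n k` take the sets of `LOCA_stmt`
(`Classical.choose`, or `choose` after turning the hypotheses into one), otherwise the empty set; the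
same for `LOCB_stmt` (`a ≥ 1`).  For a tuple `t` with `IsT t` the hypotheses on
`(n, k) = (t.1.1, t.1.2)` hold (`IsT.n1`, `k1`, `co`). -/
def TCH_stmt : Prop := LOCA_stmt → LOCB_stmt →
  ∃ (LA LA' : ℕ → ℕ × ℕ → Finset Cls) (LB : ℕ → ℕ → ℕ × ℕ → Finset Cls), LocOK LA LA' LB

/-- **TSP** (short-medium).  The type of a tuple.
Proof.  `Sy` = the set of the `p ∈ T` with `p ∣ t.1.1 * t.1.2`; `Sr` = the set of the `p ∈ T` with
`p ∤ t.1.1 * t.1.2`, `p ≠ 2`, `d.factorization p ≤ 2` and `∃ x ∈ LA p t.1, InC p 1 x t`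
(classical filters).  Last clause, `p ∈ T`, `a = d.factorization p ≥ 1`: `p ^ a ∣ d`, so
`p ^ (2 a) ∣ d ^ 2 ∣ dis t`.  If `p ∈ Sr`: by definition.  If `p ∈ Sy` or `p = 2` or `a ≥ 3`: `lB`
(`p ^ a ∣ dis t`).  Otherwise `p ∤ n k`, `p ≠ 2`, `a ≤ 2`, and `p ^ 2 ∣ dis t`: `lA`; the first
alternative would give `p ∈ Sr`, so the second holds. -/
def TSP_stmt : Prop := ∀ (LA LA' : ℕ → ℕ × ℕ → Finset Cls) (LB : ℕ → ℕ → ℕ × ℕ → Finset Cls),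
  LocOK LA LA' LB → ∀ d : ℕ, 1 ≤ d → ∀ t : Tpl, IsT t → (d : ℤ) ^ 2 ∣ dis t →
  ∃ Sr Sy : Finset ℕ, Sr ⊆ d.primeFactors ∧ Sy ⊆ d.primeFactors ∧ Disjoint Sr Sy ∧
    (∀ p ∈ Sr, p ≠ 2 ∧ d.factorization p ≤ 2) ∧ (∀ p ∈ Sy, p ∣ t.1.1 * t.1.2) ∧
    (∀ p ∈ Sr, ¬ p ∣ t.1.1 * t.1.2) ∧
    ∀ p ∈ d.primeFactors, ∃ x ∈ Lp LA LA' LB d Sr Sy p t.1, InC (mr Sr p) (ms d Sr Sy p) x t

/-- **TNA** (medium).  Arithmetic of the moduli.
Proof.  `d = ∏ p ∈ T, p ^ a` (`Nat.factorization_prod_pow_eq_self`).  Write `y` as the product over `T` of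
`if p ∈ Sy then p else 1` (`Finset.prod_ite_mem` / `Finset.prod_subset`) and `er` similarly.  For
`p ∈ T`: `mr p * ms p ∣ p ^ a` (`p · 1`, `1 · p ^ a`, `1 · p`), hence `er es ∣ d`
(`Finset.prod_dvd_prod_of_dvd`); `(mr p)² ms p (p or 1) ≤ p ^ (2 a)`: for `p ∈ Sr` it is `p²` (`p ∉ Sy`),
for `p ∈ Sy` it is `p ^ a · p`, otherwise `p ^ a` or `p` (`a ≥ 1`): product (`Finset.prod_le_prod'`).
Coprime: for `p, q ∈ T`: if `p = q` one of `mr p, ms p` is `1`, if `p ≠ q` they are coprime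
(`Nat.Coprime.prod_left`, `.prod_right`).  `y`: a product of distinct primes: squarefree, prime
factors `Sy` (`Nat.primeFactors_prod`, `Finset.squarefree_prod_of_pairwise_isCoprime`); `y ∣ es`
since `p ∣ ms p` for `p ∈ Sy` (`p ∉ Sr`, `a ≥ 1`). -/
def TNA_stmt : Prop := ∀ (d : ℕ) (Sr Sy : Finset ℕ), 1 ≤ d → Sr ⊆ d.primeFactors →
  Sy ⊆ d.primeFactors → Disjoint Sr Sy →
  1 ≤ ∏ p ∈ d.primeFactors, mr Sr p ∧ 1 ≤ ∏ p ∈ d.primeFactors, ms d Sr Sy p ∧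
  Nat.Coprime (∏ p ∈ d.primeFactors, mr Sr p) (∏ p ∈ d.primeFactors, ms d Sr Sy p) ∧
  (∏ p ∈ d.primeFactors, mr Sr p) ^ 2 * (∏ p ∈ d.primeFactors, ms d Sr Sy p) * (∏ p ∈ Sy, p) ≤
    d ^ 2 ∧
  (∏ p ∈ d.primeFactors, mr Sr p) * (∏ p ∈ d.primeFactors, ms d Sr Sy p) ∣ d ∧
  (∏ p ∈ d.primeFactors, mr Sr p) = ∏ p ∈ Sr, p ∧
  Squarefree (∏ p ∈ Sy, p) ∧ (∏ p ∈ Sy, p) ∣ ∏ p ∈ d.primeFactors, ms d Sr Sy p ∧
  (∏ p ∈ Sy, p).primeFactors = Sy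

/-- **TNB** (medium).  The local inequality.
Proof.  Both sides are products over `T` (`C ^ Sy.card = ∏ p ∈ T, if p ∈ Sy then C else 1`,
`∏ p ∈ Sy, p = ∏ p ∈ T, if p ∈ Sy then p else 1`; `Finset.prod_pow`, `Finset.prod_div_distrib`,
`Finset.prod_mul_distrib`), compare termwise (`Finset.prod_le_prod`).  `p ∈ T`, `a ≥ 1`, `p ≥ 2`,
`μ = max 2 ((a + 1) / 2)`, right side `12 C (a + 1) / p ^ μ`.
`p ∈ Sr` (`a ≤ 2`, `μ = 2`, `p ∉ Sy`): `3 p² / p⁴ = 3 / p²`.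
`p ∈ Sy`: `C · 2 (a + 1) p ^ (2 a + a / 2) / (p · p ^ (3 a)) = 2 C (a + 1) / p ^ (1 + (a + 1) / 2)` since
`3 a = 2 a + a / 2 + (a + 1) / 2`; `1 + (a + 1) / 2 ≥ μ` (as `(a + 1) / 2 ≥ 1`).
Not in `Sr`, `Sy`, and `a ≥ 3` (`μ = (a + 1) / 2`): `2 (a + 1) / p ^ ((a + 1) / 2)`.
`p = 2`, `a ≤ 2` (`μ = 2`): `2 (a + 1) / 2 ≤ 12 C (a + 1) / 4`.  Otherwise (`a ≤ 2`): `12 p / p³`. -/
def TNB_stmt : Prop := ∀ (C : ℝ) (d : ℕ) (Sr Sy : Finset ℕ), 1 ≤ C → 1 ≤ d →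
  Sr ⊆ d.primeFactors → Sy ⊆ d.primeFactors → Disjoint Sr Sy →
  (∀ p ∈ Sr, p ≠ 2 ∧ d.factorization p ≤ 2) →
  C ^ Sy.card * ((∏ p ∈ d.primeFactors, (mc d Sr Sy p : ℝ)) / (∏ p ∈ Sy, (p : ℝ))) /
      ((∏ p ∈ d.primeFactors, (mr Sr p : ℝ)) ^ 4 * (∏ p ∈ d.primeFactors, (ms d Sr Sy p : ℝ)) ^ 3) ≤
    ∏ p ∈ d.primeFactors, gg (12 * C) p (d.factorization p)

/-- **TEA** (medium).  Sum of a multiplicative function.
Proof.  Let `P` be the set of the primes `≤ D` and `G' p a = 1` for `a = 0`, `= G p a` for `a ≥ 1`.  The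
right side is `∏ p ∈ P, ∑ a ∈ range (D + 1), G' p a`, which is by `Finset.prod_sum` the sum over
`φ ∈ P.pi (fun _ => range (D + 1))` of `∏ x ∈ P.attach, G' x (φ x _)`.  The map
`d ↦ (fun p _ => d.factorization p)` from `Icc 1 D` is injective (all the prime factors are in `P`;
`Nat.eq_of_factorization_eq`), its values are `≤ D` (`Nat.factorization_lt`: `d.factorization p < d`),
and the term of `d` is `∏ p ∈ P, G' p (d.factorization p) = ∏ p ∈ d.primeFactors, G p (..)` (the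
primes of `P` not dividing `d` give `1`).  All the terms are nonnegative
(`Finset.sum_le_sum_of_subset_of_nonneg`, `Finset.sum_image`).  Another way: induction on the set of
primes. -/
def TEA_stmt : Prop := ∀ (G : ℕ → ℕ → ℝ) (D : ℕ), (∀ p a, 0 ≤ G p a) →
  ∑ d ∈ Icc 1 D, ∏ p ∈ d.primeFactors, G p (d.factorization p) ≤
    ∏ p ∈ (range (D + 1)).filter Nat.Prime, (1 + ∑ a ∈ Icc 1 D, G p a)

/-- **TEU** (medium; from TEA).  The sum over `d` converges.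
Proof.  For `p ≥ 2`, `a ≥ 1`: `p ^ (max 2 j) ≥ p² 2 ^ (j - 2)` (natural subtraction), `j = (a + 1) / 2`, and
`2 ^ (j - 2) ≥ 2 ^ j / 4 ≥ (√2) ^ a / 4` (`2 j ≥ a`), so `gg K p a ≤ 4 K (a + 1) (1/√2) ^ a / p²`.
`∑_a (a + 1) (1/√2) ^ a` converges (`summable_pow_mul_geometric_of_norm_lt_one`, `tsum` bound
`Summable.sum_le_tsum`), so `∑ a ∈ Icc 1 D, gg K p a ≤ C₀ / p²`.  TEA and `1 + x ≤ exp x`
(`Real.add_one_le_exp`, `Finset.prod_le_prod`, `Real.exp_sum`): the sum is at most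
`exp (C₀ ∑_p 1/p²)`, and `∑ 1/p²` is bounded by `∑' n, 1/n²` (`Real.summable_one_div_nat_pow`). -/
def TEU_stmt : Prop := ∀ K : ℝ, 1 ≤ K → ∃ C : ℝ, 1 ≤ C ∧ ∀ D : ℕ,
  ∑ d ∈ Icc 1 D, ∏ p ∈ d.primeFactors, gg K p (d.factorization p) ≤ C

/-- the bound for one `d` -/
def TD1_stmt : Prop :=
  ∃ η : ℝ, 0 < η ∧ ∀ κ A : ℝ, 0 < κ → 1 ≤ A → ∃ C K N₀ : ℝ, 1 ≤ C ∧ 1 ≤ K ∧ ∀ N Y Y₂ : ℝ, N₀ ≤ N →
    Y ≤ Y₂ → Y₂ ≤ N ^ η * Y → Y * Y₂ ≤ A * N → N ^ (1 - η) ≤ Y * Y₂ →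
    ∀ d : ℕ, 1 ≤ d → (d : ℝ) ≤ N ^ η → ∀ F : Finset Tpl,
      (∀ t ∈ F, Cen κ (N * (d : ℝ) ^ 2) Y Y₂ t ∧ (d : ℤ) ^ 2 ∣ dis t) →
      (F.card : ℝ) ≤ C * (Y * Y₂) * ∏ p ∈ d.primeFactors, gg K p (d.factorization p)

/-- **TD1** (medium-long; from TGM, TCH, TSP, TNA, TNB and `WG_stmt`, `LOCA_stmt`, `LOCB_stmt`).
Proof.  `η` from WG, `C, N₀` from WG; take `N₀' = max N₀ 1`, `K = 48 C`, `C' = C (1 + A ^ (3/2))`.
`LA, LA', LB` from TCH.  Fix `d`, `T = d.primeFactors`.  For every `t ∈ F` TSP gives a pair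
`(Sr, Sy)(t) ∈ T.powerset ×ˢ T.powerset` (`choose`); `F` is the union over the `4 ^ T.card` pairs of the
fibres `F' = F.filter (pair = (Sr, Sy))` (`Finset.card_eq_sum_card_fiberwise` or `card_biUnion_le`).
If a fibre is empty there is nothing to prove (then the bound is nonnegative); if not, the properties
of TSP hold for `(Sr, Sy)`.  Let `er = ∏ mr`, `es = ∏ ms`, `y = ∏ p ∈ Sy, p`.  For each `q = (n, k)` let
`S q` be the set `M` of TGM for `f = mr Sr`, `h = ms d Sr Sy`, `L p = Lp .. p q` (`mr p * ms p ∣ p ^ a`: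
three cases); `(S q).card ≤ ∏ (Lp ..).card ≤ ∏ mc =: s` (LocOK).  WG applies to `F'`: `y ∣ n k` (all the
primes of `Sy` divide `n k`: `Finset.prod_primes_dvd`), `Nat.Coprime (n k) er` (`er = ∏ p ∈ Sr, p`, the
primes of `Sr` do not divide `n k`), TNA for the rest (`Cen` gives `IsT` for TSP).  With
`ρ₁ = Y Y₂ / (N d²) ≤ A / d²`: `ρ₁ ^ (3/2) ≤ A ^ (3/2) / d³ ≤ A ^ (3/2) / (er es)³` (`er es ∣ d`, `d ≥ 1`;
`(d²) ^ (3/2) = d³`), `es ^ (1/4) ≥ 1`; so the bracket of WG is at most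
`(1 + A ^ (3/2)) / (er⁴ es³)`, and by TNB (`Sy.card = y.primeFactors.card`)
`F'.card ≤ C (1 + A ^ (3/2)) Y Y₂ ∏ gg (12 C) p a`.  Sum over the `4 ^ T.card` pairs:
`4 ^ T.card ∏ gg (12 C) p a = ∏ gg (48 C) p a`. -/
def TD1R_stmt : Prop := WG_stmt → LOCA_stmt → LOCB_stmt → TD1_stmt

/-- **TDF** (short-medium; from TD1, TEU).  The output of block C.
Proof.  `η, C, K, N₀` from `TD1_stmt`, `C₁` from TEU for `K`; `D = ⌊N ^ η⌋₊`.  `F ⊆ ⋃ over d ∈ Icc 1 D` of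
the fibres `x.1 = d` (`Nat.le_floor`); each fibre maps injectively by `x ↦ x.2` to a finset of tuples
to which TD1 applies.  So `F.card ≤ ∑ d ∈ Icc 1 D, C Y Y₂ ∏ gg ≤ C C₁ Y Y₂` (`Y Y₂ ≥ N ^ (1 - η) ≥ 0`). -/
def TDF_stmt : Prop := TD1_stmt → TD_stmt

end Pool.Agent.T6
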