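import Pool.Agent.helper43.T6.TPI
import Pool.Agent.helper18.T6.TLQ
import Pool.Agent.helper44.T6.TGS
import Pool.Agent.helper98.T6.TLB
import Pool.Agent.helper51.T6.TDL
import Pool.Agent.helper45.T6.TSN
import Pool.Agent.helper13.T6.TLF
import Pool.Agent.helper57.T6.TLO1
import Pool.Agent.helper28.T6.TLO2
import Pool.Agent.helper72.T6.TGL
import Pool.Agent.helper45.T6.TGM
import Pool.Agent.helper43.T6.TCH
import Pool.Agent.helper84.T6.TSP
import Pool.Agent.helper20.T6.TNA
import Pool.Agent.helper85.T6.TNB
import Pool.Agent.helper69.T6.TEA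
import Pool.Agent.helper66.T6.TEU
import Pool.Agent.helper49.T6.TD1
import Pool.Agent.helper52.T6.TDF

set_option autoImplicit false

/-! # T6, block C assembled -/

namespace Pool.Agent.T6

open Finset Pool.Agent.T5

theorem allLOCB : LOCB_stmt := TLO1 TPI (TLB TLQ TGS)

theorem allLOCA : LOCA_stmt := TLO2 TPI (TSN TDL) TLF

theorem allTD1 : TD1R_stmt := TD1 (TGM TGL) TCH TSP TNA TNB

/-- block C: the bound of block W gives the bound for all the tuples with a divisible discriminant -/
theorem TD_of_WG (hW : WG_stmt) : TD_stmt := TDF (TEU TEA) (allTD1 hW allLOCA allLOCB)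

end Pool.Agent.T6
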