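import Pool.Agent.helper8.T6.DefsC

set_option autoImplicit false

/-!
# T6, block C, part 1: the local classes

For a tuple `t = ((n, k), (m, g, Z))` with `IsT t`: `n¹⁰ dis t = Pk n k m g (RR t)`; the symmetric
tuple gives `k¹⁰ dis t = Pk k n g (-m) (-RR' t)`.  So a divisibility of `dis t` by a power of `p` is
a condition on `(m, g, R)` (for `p ∤ n`) or on `(g, -m, -R')` (for `p ∤ k`).  All the counts are
elementary and were checked by computer for small primes.  Scheme: page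
/team-store/T6_sec3_helper85.md, section A, and the docstrings here (complete proofs).
-/

namespace Pool.Agent.T6

open Finset Pool.Agent.T5

/-- `n¹⁰ dis` as a polynomial in `(m, g, R)` -/
def Pk (n k m g R : ℤ) : ℤ :=
  (n ^ 2 * g * R - m * k * (m ^ 2 + k * R)) ^ 2 -
    4 * (m ^ 2 + k * R) ^ 2 * (n ^ 2 * m * g + k ^ 2 * (m ^ 2 + k * R))

/-- the derivative of `Pk` with respect to `R` -/
def Pk' (n k m g R : ℤ) : ℤ :=
  2 * (n ^ 2 * g * R - m * k * (m ^ 2 + k * R)) * (n ^ 2 * g - m * k ^ 2) -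
    8 * k * (m ^ 2 + k * R) * (n ^ 2 * m * g + k ^ 2 * (m ^ 2 + k * R)) -
      4 * k ^ 3 * (m ^ 2 + k * R) ^ 2

/-- the triples of classes modulo `q` -/
def cub (q : ℕ) : Finset (ℕ × ℕ × ℕ) := range q ×ˢ range q ×ˢ range q

/-! ## Rows (Mathlib only, except TPI and the two LOC rows) -/

/-- **TPI** (short-medium).  The discriminant of a tuple is given by `Pk`.
Proof.  `theorem TR : TR_stmt` (Pool.Agent.helper11.T5.TR; statement in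
Pool.Agent.helper95.T5.SpecE, namespace Pool.Agent.T5) gives for `IsT t`:
`Λ n² = m g + Z k²`, `k R = Z n² - m²`, `dis (n k)² = (Z g - Λ m)² - 4 Z² Λ k²`,
`n² (Z g - Λ m) = k (g R - m k Z)`.  So `n⁴ · dis (n k)² = k² (g R - m k Z)² - 4 n⁴ Z² Λ k²`; cancel
`k² ≠ 0`: `n⁶ dis = (g R - m k Z)² - 4 n⁴ Z² Λ`.  Multiply by `n⁴`:
`n¹⁰ dis = (n² g R - m k (n² Z))² - 4 (n² Z)² (n⁴ Λ)`, where `n² Z = m² + k R` and
`n⁴ Λ = n² m g + k² (n² Z)`.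
Second part: `theorem SWP (hTR : TR_stmt) : SWP_stmt` (Pool.Agent.helper11.T5.SWP): for
`swp t = ((k, n), (g, -m, lam t))`: `IsT (swp t)`, `dis (swp t) = dis t`, `RR (swp t) = - RR' t`; apply
the first part to `swp t`. -/
def TPI_stmt : Prop := ∀ t : Tpl, IsT t →
  (t.1.1 : ℤ) ^ 10 * dis t = Pk t.1.1 t.1.2 t.2.1 t.2.2.1 (RR t) ∧
  (t.1.2 : ℤ) ^ 10 * dis t = Pk t.1.2 t.1.1 t.2.2.1 (-t.2.1) (-RR' t)

/-- **TLQ** (medium; helper85's Lemma Q).  Number of solutions of a quadratic congruence with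
leading coefficient `r R²`, `p ∤ r`.
Proof.  If `p ^ a ∣ R` (for instance `R = 0`) then the right side is at least `p ^ a`.  Otherwise let
`R = p ^ ρ R₁`, `p ∤ R₁`, `ρ < a`; `gcd (R, p ^ a) = p ^ ρ`.  If `2 ρ ≥ a`: `a / 2 + ρ ≥ a` (integer
part: `a ≤ 2 ρ` gives `a - a / 2 ≤ ρ`), so the bound is at least `p ^ a`: trivial.  Let `2 ρ < a` and
`J = (a + 1) / 2 - ρ` (integer part of `(a + 1) / 2`), `J ≥ 1`, `J ≤ a`, `2 J ≤ a - 2 ρ + 1`,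
`a - J = a / 2 + ρ`.  Let `x₀` be a solution (if there is none, done).  Claim: two solutions
`x, y` which are not congruent to `x₀` modulo `p ^ J` are congruent to each other modulo `p ^ J`.
Indeed `p ^ a ∣ f(x) - f(x₀) = (x - x₀)(r R² (x + x₀) + b)` and `p ^ J ∤ x - x₀`, so
`p ^ (a + 1 - J) ∣ r R² (x + x₀) + b` (if `p ^ a ∣ u v`, `p ^ J ∤ u`, `1 ≤ J ≤ a` then
`p ^ (a + 1 - J) ∣ v`; Mathlib: `Prime.pow_dvd_of_dvd_mul_left`, or `emultiplicity`, or induction);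
the same for `y`; subtract: `p ^ (a + 1 - J) ∣ r R² (x - y) = p ^ (2 ρ) r R₁² (x - y)`, so
`p ^ (a + 1 - J - 2 ρ) ∣ x - y` and `a + 1 - J - 2 ρ ≥ J`.  So all the solutions in `range (p ^ a)` lie in
at most two classes modulo `p ^ J`, each of which has `p ^ (a - J)` elements in `range (p ^ a)`
(`Nat.count_modEq_card` or `Int.Ico_filter_modEq_card`, or inject `x ↦ x / p ^ J` into
`range (p ^ (a - J))`): at most `2 p ^ (a - J) = 2 p ^ (a / 2) p ^ ρ`. -/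
def TLQ_stmt : Prop := ∀ (p a R : ℕ) (r b c : ℤ), p.Prime → ¬ (p : ℤ) ∣ r →
  ((range (p ^ a)).filter (fun g : ℕ => (p : ℤ) ^ a ∣ r * (R : ℤ) ^ 2 * (g : ℤ) ^ 2 + b * g + c)).card ≤
    2 * p ^ (a / 2) * Nat.gcd R (p ^ a)

/-- **TGS** (short).  Sum of the greatest common divisors.
Proof.  For `R` let `gcd (R, p ^ a) = p ^ j`, `j ≤ a` (`Nat.dvd_prime_pow`), `p ^ j ∣ R`; so
`gcd (R, p ^ a) ≤ ∑_{j ≤ a} if p ^ j ∣ R then p ^ j else 0`.  Exchange the sums; the number of the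
`R < p ^ a` divisible by `p ^ j` is `p ^ (a - j)`; each `j` contributes `p ^ a`. -/
def TGS_stmt : Prop := ∀ p a : ℕ, p.Prime →
  ∑ R ∈ range (p ^ a), Nat.gcd R (p ^ a) ≤ (a + 1) * p ^ a

/-- **TLB** (short-medium; from TLQ, TGS).  Number of classes `(m, g, R)` modulo `p ^ a` with
`p ^ a ∣ Pk`, for `p ∤ n`.
Proof.  `Pk n k m g R = n⁴ R² g² + b g + c` with `z = m² + k R`,
`b = - 2 n² R m k z - 4 z² n² m`, `c = m² k² z² - 4 k² z³` (`ring`).  For each `(m, R)` TLQ with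
`r = n⁴` (`p ∤ n⁴`, `Prime.dvd_of_dvd_pow`) bounds the number of `g`; sum over `m` (`p ^ a` values) and
`R` (TGS): `p ^ a · 2 p ^ (a / 2) · (a + 1) p ^ a`. -/
def TLB_stmt : Prop := ∀ (p a : ℕ) (n k : ℤ), p.Prime → ¬ (p : ℤ) ∣ n →
  ((cub (p ^ a)).filter (fun x => (p : ℤ) ^ a ∣ Pk n k x.1 x.2.1 x.2.2)).card ≤
    2 * (a + 1) * p ^ (2 * a + a / 2)

/-- **TDL** (short).  A double root in `R` modulo `p` forces a condition on `(m, g)`.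
Proof.  `Pk = c₃ R³ + c₂ R² + c₁ R + c₀` with `c₃ = - 4 k⁵`,
`c₂ = n⁴ g² - 6 n² k² m g - 11 k⁴ m²`, `c₁ = - 10 k m³ (n² g + k² m)`,
`c₀ = - m⁵ (4 n² g + 3 k² m)` and `Pk' = 3 c₃ R² + 2 c₂ R + c₁` (`ring`).  In `ZMod p` (a field):
`c₁ = - 3 c₃ R² - 2 c₂ R`, `c₀ = - c₃ R³ - c₂ R² - c₁ R`; substituting these, the discriminant
`18 c₃ c₂ c₁ c₀ - 4 c₂³ c₀ + c₂² c₁² - 4 c₃ c₁³ - 27 c₃² c₀²` is zero (`ring`).  On the other hand
it is `16 m⁵ (n² g)⁵ (n⁴ g² - 11 n² k² m g - k⁴ m²)` (`ring`; checked by computer).  `16 ≠ 0`, `n ≠ 0` in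
`ZMod p`.  (The hypothesis on `k` is not needed.) -/
def TDL_stmt : Prop := ∀ (p : ℕ) (n k m g R : ℤ), p.Prime → p ≠ 2 → ¬ (p : ℤ) ∣ n →
  (p : ℤ) ∣ Pk n k m g R → (p : ℤ) ∣ Pk' n k m g R →
  (p : ℤ) ∣ m ∨ (p : ℤ) ∣ g ∨ (p : ℤ) ∣ n ^ 4 * g ^ 2 - 11 * n ^ 2 * k ^ 2 * m * g - k ^ 4 * m ^ 2

/-- **TSN** (medium; from TDL).  Counts modulo `p` (odd, `p ∤ n k`).
Proof.  (1) For given `(m, g)` there are at most three `R ∈ range p` with `p ∣ Pk`: the polynomial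
`- 4 k⁵ X³ + c₂ X² + c₁ X + c₀` (TDL) over `ZMod p` is nonzero of degree `3`
(`Polynomial.card_roots'`, `Polynomial.natDegree_cubic_le`), and `range p → ZMod p` is injective.  So at
most `3 p²` triples.  (2) For the triples with `p ∣ Pk'` too, TDL: `m = 0` (`p` pairs), or `g = 0`
(`p` pairs), or `n⁴ g² - 11 n² k² m g - k⁴ m² = 0` in `ZMod p`: for given `m` at most two `g` (a nonzero
quadratic polynomial in `g`, leading coefficient `n⁴`): `2 p` pairs; in total at most `4 p` pairs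
`(m, g)`, each with at most three `R`. -/
def TSN_stmt : Prop := ∀ (p : ℕ) (n k : ℤ), p.Prime → p ≠ 2 → ¬ (p : ℤ) ∣ n → ¬ (p : ℤ) ∣ k →
  ((cub p).filter (fun x => (p : ℤ) ∣ Pk n k x.1 x.2.1 x.2.2)).card ≤ 3 * p ^ 2 ∧
  ((cub p).filter (fun x => (p : ℤ) ∣ Pk n k x.1 x.2.1 x.2.2 ∧
    (p : ℤ) ∣ Pk' n k x.1 x.2.1 x.2.2)).card ≤ 12 * p

/-- **TLF** (medium, algebra).  At a regular class the condition `p² ∣ Pk` is linear for `Z`.
Proof.  Write `m = m₀ + p a`, `g = g₀ + p b`, `R = R₀ + p c`, `z₀ = m₀² + k R₀`,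
`s₀ = n² g₀ R₀ - m₀ k z₀`, `l₀ = n² m₀ g₀ + k² z₀` and `z, s, l` for the same expressions in `m, g, R`.
Modulo `p²` (work with `∃ q, x = y + p² q`, or in `ZMod (p ^ 2)` with `p * p = 0`):
`z ≡ z₀ + p (2 m₀ a + k c)`, `s ≡ s₀ + p (n² g₀ c + n² R₀ b - k m₀ (2 m₀ a + k c) - k z₀ a)`,
`l ≡ l₀ + p (n² m₀ b + n² g₀ a + k² (2 m₀ a + k c))`, and
`Pk = s² - 4 z² l ≡ P₀ + p (Pm a + Pg b + PR c)` with integers `Pm, Pg` depending only on the class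
(`2 s₀ δs - 8 z₀ l₀ δz - 4 z₀² δl`) and `PR = Pk' n k m₀ g₀ R₀`.  Let `i PR ≡ 1` and `j n² ≡ 1` modulo `p²`
(`Int.gcd_eq_gcd_ab` or `ZMod.unitOfCoprime`).  `p² ∣ Pk` gives
`R = R₀ + p c ≡ R₀ - i (P₀ + Pm (m - m₀) + Pg (g - g₀))`; `m² ≡ 2 m₀ m - m₀²`
(`m² - 2 m₀ m + m₀² = (p a)²`).  So `Z ≡ j n² Z = j (m² + k R) ≡ j (2 m₀ m - m₀² + k R₀ -
k i (P₀ + Pm (m - m₀) + Pg (g - g₀)))`, which is `u + v m + w g` with
`v = j (2 m₀ - k i Pm)`, `w = - j k i Pg`,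
`u = j (- m₀² + k R₀ - k i (P₀ - Pm m₀ - Pg g₀))`. -/
def TLF_stmt : Prop := ∀ (p : ℕ) (n k m₀ g₀ R₀ : ℤ), p.Prime → ¬ (p : ℤ) ∣ n →
  ¬ (p : ℤ) ∣ Pk' n k m₀ g₀ R₀ → ∃ u v w : ℤ, ∀ m g R Z : ℤ, (p : ℤ) ∣ m - m₀ → (p : ℤ) ∣ g - g₀ →
    (p : ℤ) ∣ R - R₀ → (p : ℤ) ^ 2 ∣ Pk n k m g R → k * R = Z * n ^ 2 - m ^ 2 →
    (p : ℤ) ^ 2 ∣ Z - (u + v * m + w * g)

/-- **TLO1** (medium; from TPI, TLB): `LOCB_stmt`.
Proof.  Case `p ∤ n`: `L` is the image of the set of TLB (for `n, k`) under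
`(m, g, R) ↦ ⟨m, g, R, 0, 0, 0, 0⟩` (`Finset.card_image_le`).  For `t` take the residues of
`t.2.1`, `t.2.2.1`, `RR t` modulo `p ^ a` (`Int.emod`, `Int.toNat`; `Int.emod_emod_of_dvd`,
`Int.dvd_sub_self_of_emod_eq` ..); `p ^ a ∣ n¹⁰ dis t = Pk (..)` and `Pk` of the residues is congruent to
`Pk` modulo `p ^ a` (`Int.ModEq`: `gcongr` or `Int.ModEq.pow`, `.mul`, `.sub`; or unfold and `ZMod`).
`e1 (p ^ a) n = p ^ a`, `e2 (p ^ a) n = 1` (`Nat.primeFactors_prime_pow`, `Nat.Prime.factorization_pow`).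
Case `p ∣ n`: then `p ∤ k` (coprime); `L` is the image of the set of TLB for `(k, n)` under
`(g, m', r) ↦ ⟨-m', g, 0, -r, 0, 0, 0⟩`; for `t` the residues of `t.2.2.1`, `- t.2.1`, `- RR' t`;
`p ^ a ∣ k¹⁰ dis t = Pk k n g (-m) (-RR' t)`; `e1 (p ^ a) n = 1`, `e2 (p ^ a) n = p ^ a`.
`er = 1`: the last condition of `InC` is trivial. -/
def TLO1_stmt : Prop := LOCB_stmt

/-- **TLO2** (medium; from TPI, TSN, TLF): `LOCA_stmt`.
Proof.  `p ∤ n`, `p ∤ k`.  `L'` is the image of the second set of TSN under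
`(m, g, R) ↦ ⟨m, g, R, 0, 0, 0, 0⟩`; `L` is the image of the set of the triples of the first set with
`p ∤ Pk'` under `(m, g, R) ↦ ⟨m, g, 0, 0, u, v, w⟩`, with `u, v, w` chosen by TLF for the class
`(m, g, R)` (`choose`, or `Classical.choose` under a `dite`).  For `t` with `p² ∣ dis t` take the residues
`(m₀, g₀, R₀)` of `t.2.1`, `t.2.2.1`, `RR t` modulo `p`: `p ∣ Pk (residues)`.  If `p ∣ Pk' (residues)`:
`InC 1 p` (`e1 p n = p`, `e2 p n = 1`).  Otherwise TLF with `p² ∣ n¹⁰ dis t = Pk (t)` and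
`k R = Z n² - m²` (`TR`): `InC p 1` (`e1 1 n = 1 = e2 1 n`). -/
def TLO2_stmt : Prop := LOCA_stmt

end Pool.Agent.T6
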